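import Pool.Agent.Work.MP_93d592_an.B.Final

/-!
# The unrestricted maximal Poisson integral on the Siegel upper half-space

For every `m ≥ 1` and every `f ∈ L (log⁺ L)^(m-1)` with bounded support on the space of real
symmetric `m × m` matrices, the unrestricted maximal function `M_U f` is finite almost everywhere.

The definitions `Ix`, `sym`, `absDet`, `kern`, `cm`, `poisson`, `u`, `MU` are in
`Pool/Agent/Work/MP_93d592_an/Stmt.lean`.
-/

open MeasureTheory

namespace Pool.Agent.Results.MP_93d592_an.SiegelPoissonFinite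

/-- Full answer to Q1 (affirmative), for every `m ≥ 1`. -/
theorem result (m : ℕ) (hm : 1 ≤ m) (f : (SiegelPoisson.Ix m → ℝ) → ℝ)
    (hf : AEStronglyMeasurable f volume)
    (hb : Bornology.IsBounded (Function.support f))
    (hL : ∫⁻ x, ENNReal.ofReal (|f x| * max (Real.log |f x|) 0 ^ (m - 1)) < ⊤) :
    ∀ᵐ x, SiegelPoisson.MU f x < ⊤ :=
  SiegelPoisson.main m hm f hf hb hL

end Pool.Agent.Results.MP_93d592_an.SiegelPoissonFinite
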